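import Mathlib

/-!
# The cohomology of products of curves and abelian varieties: definitions
-/

set_option autoImplicit false

namespace Pool.Agent.Y107.CV

section words

variable {T κ : Type} {i : ℕ} {L : T → Type}

/-- The word `β = (c_1, x_1) ... (c_i, x_i)` is a basis word: the letter `x_l` belongs to the variety
`B_t`, `t = q (c_l)`, which is the factor `c_l` of `∏ B_(q c)`, and the factors which are curves are
not repeated. -/
def IsWord (q : κ → T) (crv : T → Prop) (β : Fin i → κ × Σ t, L t) : Prop :=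
  (∀ l, (β l).2.1 = q (β l).1) ∧ ∀ l l', l ≠ l' → crv (q (β l).1) → (β l).1 ≠ (β l').1

/-- `u` is the family of coefficients of the `i`-form `∑ u(β) x_1^(c_1) ∧ ... ∧ x_i^(c_i)`. -/
def IsForm (q : κ → T) (crv : T → Prop) (u : (Fin i → κ × Σ t, L t) → ℚ) : Prop :=
  (∀ β, u β ≠ 0 → IsWord q crv β) ∧
    ∀ (π : Equiv.Perm (Fin i)) β, u (fun l => β (π l)) = ((Equiv.Perm.sign π : ℤ) : ℚ) * u β

/-- The form with the coefficients `u` is invariant under the substitution
`x^(c) ↦ ∑ M_(c c') x^(c')`, the pull back under the endomorphism of `∏ B_(q c)` with the matrix `M`. -/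
def IsInvariant [Fintype κ] (M : Matrix κ κ ℚ) (u : (Fin i → κ × Σ t, L t) → ℚ) : Prop :=
  ∀ (c' : Fin i → κ) (x : Fin i → Σ t, L t),
    ∑ c : Fin i → κ, (∏ l, M (c l) (c' l)) * u (fun l => (c l, x l)) = u fun l => (c' l, x l)

end words

section

variable {T κ : Type} (g : T → ℕ) (q : κ → T) (crv : T → Prop) (i : ℕ)

/-- There are no nonzero holomorphic `i`-forms on `∏ B_(q c)` which are invariant under all elements
of `Γ`; the letters of `B_t` are a basis of its holomorphic 1-forms, `g t` in number. -/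
def NoForms [Fintype κ] (Γ : Set (Matrix κ κ ℚ)) : Prop :=
  ∀ u : (Fin i → κ × Σ t, Fin (g t)) → ℚ, IsForm q crv u → (∀ M ∈ Γ, IsInvariant M u) → u = 0

open Classical in
/-- The matrix of the polarization in a symplectic basis `e_1, ..., e_g, f_1, ..., f_g`. -/
noncomputable def J (x y : Σ t, Fin (g t) × Bool) : ℚ :=
  if y = ⟨x.1, x.2.1, !x.2.2⟩ then if x.2.2 then -1 else 1 else 0

open Classical in
/-- The coefficients of the divisor class `ω_(c c') = ∑ e_j^(c) ∧ f_j^(c') - f_j^(c) ∧ e_j^(c')` on the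
factors `c` and `c'` of the same type. -/
noncomputable def omega (c c' : κ) (x y : κ × Σ t, Fin (g t) × Bool) : ℚ :=
  if x.1 = c ∧ y.1 = c' ∧ x.2.1 = q c ∧ y.2.1 = q c' then J g x.2 y.2 else 0

/-- The space of the classes of degree `i` spanned by the products `ω_(c c') ∧ v` of one of the
divisor classes and a class `v`. -/
def divisible : Submodule ℚ ((Fin i → κ × Σ t, Fin (g t) × Bool) → ℚ) :=
  Submodule.span ℚ {u | ∃ (a b : Fin i) (c c' : κ) (v : (Fin i → κ × Σ t, Fin (g t) × Bool) → ℚ),
    a ≠ b ∧ (∀ β x y, v (Function.update (Function.update β a x) b y) = v β) ∧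
    (∀ β, omega g q c c' (β a) (β b) * v β ≠ 0 → IsWord q crv β) ∧
    u = fun β => ∑ π : Equiv.Perm (Fin i), ((Equiv.Perm.sign π : ℤ) : ℚ) *
      (omega g q c c' (β (π a)) (β (π b)) * v fun l => β (π l))}

/-- `Q1` in degree `i` for the quotient of `∏ B_(q c)` by the group generated by `Γ`: if there are no
invariant holomorphic `i`-forms then all invariant rational classes of degree `i` are linear
combinations of products with divisor classes. -/
def ConiveauOne [Fintype κ] (Γ : Set (Matrix κ κ ℚ)) : Prop :=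
  NoForms g q crv i Γ → ∀ u : (Fin i → κ × Σ t, Fin (g t) × Bool) → ℚ, IsForm q crv u →
    (∀ M ∈ Γ, IsInvariant M u) → u ∈ divisible g q crv i

end

end Pool.Agent.Y107.CV
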