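import Pool.Agent.Y107.CV.Defs
import Pool.Agent.TH131.GHC.Lef

/-!
# Invariant classes of coniveau one
-/

set_option autoImplicit false

namespace Pool.Agent.Y107.CV

open Equiv
open Pool.Agent.H204R3.SP (JJ)
open Pool.Agent.TH131.GHC (AntiSet Van mem_anti_of_van IdlR JQ antiSpan_le)

section

variable {T κ : Type} [Fintype T] [Fintype κ] {g : T → ℕ} {q : κ → T} {crv : T → Prop} {i : ℕ}

/-- The restriction of a form to the subspaces given by `Y`. -/
noncomputable def restr (Y : (Σ t, Fin (g t)) → (Σ t, Fin (g t) × Bool) → ℚ)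
    (u : (Fin i → κ × Σ t, Fin (g t) × Bool) → ℚ) (β : Fin i → κ × Σ t, Fin (g t)) : ℚ :=
  ∑ x : Fin i → Σ t, Fin (g t) × Bool, u (fun l => ((β l).1, x l)) * ∏ l, Y (β l).2 (x l)

theorem restr_isForm {Y : (Σ t, Fin (g t)) → (Σ t, Fin (g t) × Bool) → ℚ}
    (hY : ∀ γ x, Y γ x ≠ 0 → x.1 = γ.1) {u : (Fin i → κ × Σ t, Fin (g t) × Bool) → ℚ}
    (hu : IsForm q crv u) : IsForm q crv (restr Y u) := by
  refine ⟨fun β hβ => ?_, fun π β => ?_⟩
  · obtain ⟨x, -, hx⟩ := Finset.exists_ne_zero_of_sum_ne_zero hβ
    have h1 := hu.1 _ (left_ne_zero_of_mul hx)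
    have h2 := right_ne_zero_of_mul hx
    rw [Finset.prod_ne_zero_iff] at h2
    refine ⟨fun l => ?_, fun l l' hl hc => h1.2 l l' hl hc⟩
    rw [← hY _ _ (h2 l (Finset.mem_univ l))]
    exact h1.1 l
  · unfold restr
    rw [Finset.mul_sum]
    refine (Fintype.sum_equiv (Equiv.arrowCongr π (Equiv.refl _)) _ _ fun x => ?_)
    have h1 := hu.2 π fun l => ((β l).1, x (π.symm l))
    simp only [Equiv.symm_apply_apply] at h1
    have h2 : (Equiv.arrowCongr π (Equiv.refl (Σ t, Fin (g t) × Bool))) x =
        fun l => x (π.symm l) := rfl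
    rw [h1, h2, mul_assoc]
    congr 2
    refine Fintype.prod_equiv π _ _ fun l => ?_
    change Y (β (π l)).2 (x l) = Y (β (π l)).2 (x (π.symm (π l)))
    rw [Equiv.symm_apply_apply]

theorem restr_inv {Y : (Σ t, Fin (g t)) → (Σ t, Fin (g t) × Bool) → ℚ}
    {u : (Fin i → κ × Σ t, Fin (g t) × Bool) → ℚ} {M : Matrix κ κ ℚ} (hu : IsInvariant M u) :
    IsInvariant M (restr Y u) := by
  intro c' γ
  simp only [restr, Finset.mul_sum]
  rw [Finset.sum_comm]
  refine Finset.sum_congr rfl fun x _ => ?_
  rw [← hu c' x, Finset.sum_mul]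
  refine Finset.sum_congr rfl fun c _ => ?_
  ring

/-- The letters in the symplectic dual. -/
def inv (x : Σ t, Fin (g t) × Bool) : Σ t, Fin (g t) × Bool := ⟨x.1, x.2.1, !x.2.2⟩

/-- The signs. -/
def jj (x : Σ t, Fin (g t) × Bool) : ℚ := if x.2.2 then -1 else 1

theorem J_eq [DecidableEq T] (x y : Σ t, Fin (g t) × Bool) : J g x y = JJ inv jj x y := by
  unfold J JJ inv jj
  split_ifs <;> simp_all

theorem inv_inv' (x : Σ t, Fin (g t) × Bool) : inv (inv x) = x := by
  obtain ⟨t, j, b⟩ := x
  simp [inv]

theorem jj_inv (x : Σ t, Fin (g t) × Bool) : jj (inv x) = -jj x := by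
  obtain ⟨t, j, b⟩ := x
  cases b <;> simp [inv, jj]

theorem jj_ne (x : Σ t, Fin (g t) × Bool) : jj x ≠ 0 := by
  unfold jj
  split_ifs <;> norm_num

theorem card_class (t : T) [Fintype {γ : Σ t, Fin (g t) // γ.1 = t}] :
    Fintype.card {γ : Σ t, Fin (g t) // γ.1 = t} = g t := by
  rw [Fintype.card_congr (Equiv.sigmaSubtype (β := fun t => Fin (g t)) t), Fintype.card_fin]

theorem card_class2 (t : T) [Fintype {x : Σ t, Fin (g t) × Bool // x.1 = t}] :
    Fintype.card {x : Σ t, Fin (g t) × Bool // x.1 = t} = 2 * g t := by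
  rw [Fintype.card_congr (Equiv.sigmaSubtype (β := fun t => Fin (g t) × Bool) t),
    Fintype.card_prod, Fintype.card_fin, Fintype.card_bool, mul_comm]

/-- Each slice of an invariant class is in the ideal of the symplectic forms. -/
theorem slice_mem [DecidableEq T] {Γ : Set (Matrix κ κ ℚ)} (hno : NoForms g q crv i Γ)
    {u : (Fin i → κ × Σ t, Fin (g t) × Bool) → ℚ} (hu : IsForm q crv u)
    (hinv : ∀ M ∈ Γ, IsInvariant M u) (c : Fin i → κ) :
    (fun x : Fin i → Σ t, Fin (g t) × Bool => u fun l => (c l, x l)) ∈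
      IdlR (κ := Fin i) (K := ℚ) (fun x : Σ t, Fin (g t) × Bool => x.1) inv jj := by
  classical
  have h1 : Van (fun γ : Σ t, Fin (g t) => γ.1) (fun l => q (c l))
      (fun x : Fin i → Σ t, Fin (g t) × Bool => u fun l => (c l, x l)) := by
    intro γ hγ Y
    let Y' : (Σ t, Fin (g t)) → (Σ t, Fin (g t) × Bool) → ℚ := fun γ x =>
      if x.1 = γ.1 then Y γ x else 0
    have hY' : ∀ γ x, Y' γ x ≠ 0 → x.1 = γ.1 := by
      intro γ x h
      by_contra hcon
      exact h (if_neg hcon)
    have h2 := hno (restr Y' u) (restr_isForm hY' hu) fun M hM => restr_inv (hinv M hM)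
    have h3 := congrFun h2 fun l => (c l, γ l)
    change ∑ x : Fin i → Σ t, Fin (g t) × Bool, u (fun l => (c l, x l)) * ∏ l, Y' (γ l) (x l) = 0
      at h3
    rw [← h3]
    refine Finset.sum_congr rfl fun x _ => ?_
    by_cases h0 : u (fun l => (c l, x l)) = 0
    · change u (fun l => (c l, x l)) * _ = u (fun l => (c l, x l)) * _
      rw [h0, zero_mul, zero_mul]
    · congr 1
      refine Finset.prod_congr rfl fun l _ => ?_
      have h4 : (x l).1 = (γ l).1 := ((hu.1 _ h0).1 l).trans (hγ l).symm
      exact (if_pos h4).symm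
  have h2 := mem_anti_of_van (fun x : Σ t, Fin (g t) × Bool => x.1)
    (fun γ : Σ t, Fin (g t) => γ.1) (fun l => q (c l)) _ (fun x hx k => (hu.1 _ hx).1 k) h1
  refine antiSpan_le (inv := inv) (jj := jj) inv_inv' jj_inv jj_ne (fun x => rfl) _ _
    (fun t => ?_) h2
  rw [card_class2, card_class, two_mul]

open Classical in
/-- The extension of a function of the letters to the words with the positions `c`. -/
noncomputable def extw (q : κ → T) (c : Fin i → κ) :
    ((Fin i → Σ t, Fin (g t) × Bool) → ℚ) →ₗ[ℚ] ((Fin i → κ × Σ t, Fin (g t) × Bool) → ℚ) where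
  toFun F β := if ∀ l, (β l).1 = c l ∧ (β l).2.1 = q (c l) then F fun l => (β l).2 else 0
  map_add' F F' := by
    funext β
    simp only [Pi.add_apply]
    split_ifs
    · rfl
    · rw [add_zero]
  map_smul' r F := by
    funext β
    simp only [Pi.smul_apply, RingHom.id_apply]
    split_ifs
    · rfl
    · rw [smul_zero]

open Classical in
theorem extw_apply (c : Fin i → κ) (F : (Fin i → Σ t, Fin (g t) × Bool) → ℚ)
    (β : Fin i → κ × Σ t, Fin (g t) × Bool) :
    extw q c F β = if ∀ l, (β l).1 = c l ∧ (β l).2.1 = q (c l) then F fun l => (β l).2 else 0 :=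
  rfl

/-- The alternating sum. -/
noncomputable def altL : ((Fin i → κ × Σ t, Fin (g t) × Bool) → ℚ) →ₗ[ℚ]
    ((Fin i → κ × Σ t, Fin (g t) × Bool) → ℚ) where
  toFun F β := ∑ π : Perm (Fin i), ((Perm.sign π : ℤ) : ℚ) * F fun l => β (π l)
  map_add' F F' := by
    funext β
    simp only [Pi.add_apply, mul_add, Finset.sum_add_distrib]
  map_smul' r F := by
    funext β
    simp only [Pi.smul_apply, smul_eq_mul, RingHom.id_apply, Finset.mul_sum]
    refine Finset.sum_congr rfl fun π _ => ?_
    ring

theorem altL_apply (F : (Fin i → κ × Σ t, Fin (g t) × Bool) → ℚ)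
    (β : Fin i → κ × Σ t, Fin (g t) × Bool) :
    altL F β = ∑ π : Perm (Fin i), ((Perm.sign π : ℤ) : ℚ) * F fun l => β (π l) := rfl

theorem alt_extw_mem [DecidableEq T] (c : Fin i → κ)
    (hc : ∀ l l', l ≠ l' → crv (q (c l)) → c l ≠ c l')
    {F : (Fin i → Σ t, Fin (g t) × Bool) → ℚ}
    (hF : F ∈ IdlR (κ := Fin i) (K := ℚ) (fun x : Σ t, Fin (g t) × Bool => x.1) inv jj) :
    altL (extw q c F) ∈ divisible g q crv i := by
  classical
  unfold IdlR at hF
  induction hF using Submodule.span_induction with
  | zero => rw [map_zero, map_zero]; exact Submodule.zero_mem _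
  | add F F' _ _ h h' => rw [map_add, map_add]; exact Submodule.add_mem _ h h'
  | smul r F _ h => rw [map_smul, map_smul]; exact Submodule.smul_mem _ _ h
  | mem F hF =>
    obtain ⟨a, b, t, G, hab, hG, rfl⟩ := hF
    let v : (Fin i → κ × Σ t, Fin (g t) × Bool) → ℚ := fun β =>
      if q (c a) = t ∧ ∀ l, l ≠ a → l ≠ b → (β l).1 = c l ∧ (β l).2.1 = q (c l) then
        G fun l => (β l).2 else 0
    have hterm : ∀ β : Fin i → κ × Σ t, Fin (g t) × Bool,
        extw q c (fun X => JQ (fun x : Σ t, Fin (g t) × Bool => x.1) inv jj t (X a) (X b) * G X) β =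
          omega g q (c a) (c b) (β a) (β b) * v β := by
      intro β
      rw [extw_apply]
      by_cases h1 : ∀ l, (β l).1 = c l ∧ (β l).2.1 = q (c l)
      · rw [if_pos h1]
        have h2 : omega g q (c a) (c b) (β a) (β b) = J g (β a).2 (β b).2 :=
          if_pos ⟨(h1 a).1, (h1 b).1, (h1 a).2, (h1 b).2⟩
        rw [h2]
        by_cases h3 : q (c a) = t
        · have h4 : v β = G fun l => (β l).2 := if_pos ⟨h3, fun l _ _ => h1 l⟩
          have h5 : JQ (fun x : Σ t, Fin (g t) × Bool => x.1) inv jj t (β a).2 (β b).2 =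
              J g (β a).2 (β b).2 := by
            unfold JQ
            rw [if_pos ((h1 a).2.trans h3)]
            exact (J_eq _ _).symm
          rw [h4, h5]
        · have h4 : v β = 0 := if_neg fun h => h3 h.1
          have h5 : JQ (fun x : Σ t, Fin (g t) × Bool => x.1) inv jj t (β a).2 (β b).2 = 0 := by
            unfold JQ
            rw [if_neg]
            exact fun h => h3 ((h1 a).2.symm.trans h)
          rw [h4, h5, zero_mul, mul_zero]
      · rw [if_neg h1]
        push Not at h1
        obtain ⟨l, hl⟩ := h1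
        by_cases hla : l = a
        · subst hla
          have h2 : omega g q (c l) (c b) (β l) (β b) = 0 := by
            unfold omega
            rw [if_neg]
            rintro ⟨h3, -, h4, -⟩
            exact hl h3 h4
          rw [h2, zero_mul]
        by_cases hlb : l = b
        · subst hlb
          have h2 : omega g q (c a) (c l) (β a) (β l) = 0 := by
            unfold omega
            rw [if_neg]
            rintro ⟨-, h3, -, h4⟩
            exact hl h3 h4
          rw [h2, zero_mul]
        have h2 : v β = 0 := by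
          simp only [v]
          rw [if_neg]
          rintro ⟨-, h3⟩
          exact hl (h3 l hla hlb).1 (h3 l hla hlb).2
        rw [h2, mul_zero]
    refine Submodule.subset_span ⟨a, b, c a, c b, v, hab, fun β x y => ?_, fun β hβ => ?_, ?_⟩
    · have h1 : ∀ l, l ≠ a → l ≠ b →
          Function.update (Function.update β a x) b y l = β l := fun l hla hlb => by
        rw [Function.update_of_ne hlb, Function.update_of_ne hla]
      have h2 : (q (c a) = t ∧ ∀ l, l ≠ a → l ≠ b →
          (Function.update (Function.update β a x) b y l).1 = c l ∧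
            (Function.update (Function.update β a x) b y l).2.1 = q (c l)) ↔
          (q (c a) = t ∧ ∀ l, l ≠ a → l ≠ b → (β l).1 = c l ∧ (β l).2.1 = q (c l)) := by
        refine and_congr_right fun _ => forall_congr' fun l => ?_
        refine imp_congr_right fun hla => imp_congr_right fun hlb => ?_
        rw [h1 l hla hlb]
      simp only [v]
      refine if_congr h2 ?_ rfl
      have h3 : (fun l => (Function.update (Function.update β a x) b y l).2) =
          Function.update (Function.update (fun l => (β l).2) a x.2) b y.2 := by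
        funext l
        by_cases hlb : l = b
        · subst hlb
          rw [Function.update_self, Function.update_self]
        · rw [Function.update_of_ne hlb, Function.update_of_ne hlb]
          by_cases hla : l = a
          · subst hla
            rw [Function.update_self, Function.update_self]
          · rw [Function.update_of_ne hla, Function.update_of_ne hla]
      rw [h3]
      exact hG _ _ _
    · rw [← hterm, extw_apply] at hβ
      have h1 : ∀ l, (β l).1 = c l ∧ (β l).2.1 = q (c l) := by
        by_contra hcon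
        exact hβ (if_neg hcon)
      refine ⟨fun l => ?_, fun l l' hl hcr => ?_⟩
      · rw [(h1 l).2, (h1 l).1]
      · rw [(h1 l).1] at hcr ⊢
        rw [(h1 l').1]
        exact hc l l' hl hcr
    · funext β
      rw [altL_apply]
      exact Finset.sum_congr rfl fun π _ => by rw [hterm]

/-- **Coniveau one.** -/
theorem coniveauOne (Γ : Set (Matrix κ κ ℚ)) : ConiveauOne g q crv i Γ := by
  classical
  intro hno u hu hinv
  have h1 : ∀ c : Fin i → κ, altL (extw q c fun x => u fun l => (c l, x l)) ∈
      divisible g q crv i := by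
    intro c
    by_cases hc : ∀ l l', l ≠ l' → crv (q (c l)) → c l ≠ c l'
    · exact alt_extw_mem c hc (slice_mem hno hu hinv c)
    · have h2 : (fun x : Fin i → Σ t, Fin (g t) × Bool => u fun l => (c l, x l)) = 0 := by
        funext x
        by_contra h3
        exact hc (hu.1 _ h3).2
      rw [h2, map_zero, map_zero]
      exact Submodule.zero_mem _
  have h2 : u = ∑ c : Fin i → κ, extw q c fun x => u fun l => (c l, x l) := by
    funext β
    rw [Finset.sum_apply, Finset.sum_eq_single fun l => (β l).1]
    · rw [extw_apply]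
      by_cases h0 : u β = 0
      · split_ifs
        · rfl
        · exact h0
      · rw [if_pos fun l => ⟨rfl, (hu.1 _ h0).1 l⟩]
    · intro c _ hne
      rw [extw_apply, if_neg]
      intro h3
      exact hne (funext fun l => ((h3 l).1).symm)
    · intro h
      exact absurd (Finset.mem_univ _) h
  have h3 : altL u = (Fintype.card (Perm (Fin i)) : ℚ) • u := by
    funext β
    rw [altL_apply]
    have h4 : ∀ π : Perm (Fin i), ((Perm.sign π : ℤ) : ℚ) * u (fun l => β (π l)) = u β := by
      intro π
      rw [hu.2, ← mul_assoc]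
      rcases Int.units_eq_one_or (Perm.sign π) with h | h <;> rw [h] <;> simp
    rw [Finset.sum_congr rfl fun π _ => h4 π, Finset.sum_const, Finset.card_univ,
      Pi.smul_apply, smul_eq_mul, nsmul_eq_mul]
  have h4 : altL u ∈ divisible g q crv i := by
    have h5 : altL u = ∑ c : Fin i → κ, altL (extw q c fun x => u fun l => (c l, x l)) :=
      (congrArg altL h2).trans (map_sum _ _ _)
    rw [h5]
    exact Submodule.sum_mem _ fun c _ => h1 c
  rw [h3] at h4
  have h5 : (Fintype.card (Perm (Fin i)) : ℚ) ≠ 0 := by exact_mod_cast Fintype.card_ne_zero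
  have h6 := Submodule.smul_mem _ (Fintype.card (Perm (Fin i)) : ℚ)⁻¹ h4
  rwa [smul_smul, inv_mul_cancel₀ h5, one_smul] at h6

end

end Pool.Agent.Y107.CV
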